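import Pool.Agent.Run7.h646.TG.LocA
import Pool.Agent.Run7.h784.TG.Stm
import Pool.Agent.N227.PJ.Ns
import Pool.Agent.N765.PJ.Exq
import Pool.Agent.N769.PJ.Int
import Pool.Agent.Run7.h225.TS.Ovr2

/-!
# Project TG (helper784), part LOCQ: the primes over `Q` and the factors of `f` modulo `Q`

helper646.
-/

set_option autoImplicit false
set_option linter.all false

open Polynomial IsDedekindDomain WithZero
open scoped Classical

namespace Run7.h646.TG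

open Pool.Agent.N874.PP (Ov Ev Sq1)
open Pool.Agent.N352.PJ (IsGen Crd GoodR Ht dsc S_INT)
open Pool.Agent.N765.PJ (ev ev_L ev_f ev_ker ev_surj ex_poly ev_CQ theta_ex val_one)
open Pool.Agent.N862.PP (sq1_mul_sq not_ev_of_exp ev_mul_sq)

section red

variable {k : Type} [Field k] {Q : k[X]} {κ : Type} [Field κ] {π : k[X] →+* κ}

theorem dvd_of_map (hπ : ∀ c, π c = 0 ↔ Q ∣ c) {p : k[X][X]} (h : p.map π = 0) :
    ∃ p' : k[X][X], p = C Q * p' := by
  have : C Q ∣ p := by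
    rw [C_dvd_iff_dvd_coeff]
    intro i
    have h1 := congrArg (fun p => coeff p i) h
    simp only [coeff_map, coeff_zero] at h1
    exact (hπ _).1 h1
  exact this

theorem map_eq_iff (hπ : ∀ c, π c = 0 ↔ Q ∣ c) {p q : k[X][X]} :
    p.map π = q.map π ↔ ∀ j, Q ∣ (p - q).coeff j := by
  rw [← sub_eq_zero, ← Polynomial.map_sub]
  constructor
  · intro h j
    have h1 := congrArg (fun p => coeff p j) h
    simp only [coeff_map, coeff_zero] at h1
    exact (hπ _).1 h1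
  · intro h
    ext j
    rw [coeff_map, coeff_zero]
    exact (hπ _).2 (h j)

/-- the reduction is squarefree -/
theorem red_sqf {g : ℕ} (hπ : ∀ c, π c = 0 ↔ Q ∣ c) {f : k[X][X]} (hm : f.Monic)
    (hd : f.natDegree = 2 * g + 1) (hg : 1 ≤ g) (hdsc : ¬ Q ∣ dsc g f) :
    Squarefree (f.map π) := by
  have h1 : (f.map π).natDegree ≤ 2 * g + 1 := by
    rw [← hd]; exact natDegree_map_le
  have h2 : (derivative (f.map π)).natDegree ≤ 2 * g := by
    refine (natDegree_derivative_le _).trans ?_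
    omega
  obtain ⟨p, q, -, -, h3⟩ := exists_mul_add_mul_eq_C_resultant (f.map π) (derivative (f.map π)) h1 h2
    (Or.inl (by omega))
  have h4 : (f.map π).resultant (derivative (f.map π)) (2 * g + 1) (2 * g) = π (dsc g f) := by
    rw [derivative_map, resultant_map_map]
    rfl
  have h5 : π (dsc g f) ≠ 0 := fun h => hdsc ((hπ _).1 h)
  rw [h4] at h3
  have h6 : (f.map π).Separable := by
    refine ⟨C (π (dsc g f))⁻¹ * p, C (π (dsc g f))⁻¹ * q, ?_⟩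
    have : C (π (dsc g f))⁻¹ * p * f.map π + C (π (dsc g f))⁻¹ * q * derivative (f.map π) =
        C (π (dsc g f))⁻¹ * (f.map π * p + derivative (f.map π) * q) := by ring
    rw [this, h3, ← C_mul, inv_mul_cancel₀ h5, C_1]
  exact h6.squarefree

end red

section main

variable {k K L O : Type} [Field k] [Field K] [Algebra k[X] K] [IsFractionRing k[X] K]
  [Field L] [Algebra K L] [Algebra k[X] L] [IsScalarTower k[X] K L] [CommRing O]
  [IsDedekindDomain O] [Algebra O L] [IsFractionRing O L] [Algebra k[X] O]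
  [IsScalarTower k[X] O L] [IsIntegralClosure O k[X] L] {g : ℕ} {f : k[X][X]} {θ : L}
  {Q : k[X]} {κ : Type} [Field κ] {π : k[X] →+* κ} {t : O}

/-- membership by reduction modulo `Q` -/
theorem mem_of_dvd (hπs : Function.Surjective π) (hπ : ∀ c, π c = 0 ↔ Q ∣ c) {I : Ideal O}
    (hQI : algebraMap k[X] O Q ∈ I) {m p : k[X][X]} (hm : ev t m ∈ I) (hd : m.map π ∣ p.map π) :
    ev t p ∈ I := by
  obtain ⟨c, hc⟩ := hd
  obtain ⟨c, rfl⟩ := Polynomial.map_surjective π hπs c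
  have h1 : (p - m * c).map π = 0 := by
    rw [Polynomial.map_sub, Polynomial.map_mul, hc, sub_self]
  obtain ⟨d, hd⟩ := dvd_of_map hπ h1
  have h2 : p = m * c + C Q * d := by rw [← hd]; ring
  rw [h2, map_add, map_mul, ev_CQ]
  exact I.add_mem (I.mul_mem_right _ hm) (I.mul_mem_right _ hQI)

/-- The prime `𝔓` over `Q` belongs to the factor `φ` of `f` modulo `Q`. -/
structure PF (t : O) (Q : k[X]) (π : k[X] →+* κ) (𝔓 : HeightOneSpectrum O) (φ : κ[X]) : Prop where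
  ov : Ov Q 𝔓
  mem : ∀ p : k[X][X], ev t p ∈ 𝔓.asIdeal ↔ φ ∣ p.map π
  sq : ∀ p : k[X][X], (∃ z : O, ev t p - z ^ 2 ∈ 𝔓.asIdeal) ↔ IsSquare (AdjoinRoot.mk φ (p.map π))

theorem ex_prime (hπs : Function.Surjective π) (hπ : ∀ c, π c = 0 ↔ Q ∣ c) (hQ : Irreducible Q)
    (hI : S_INT) (h : IsGen g K f θ) (hsq : Squarefree (dsc g f)) (ht : algebraMap O L t = θ)
    {φ : κ[X]} (hφ : φ ∈ fs (f.map π)) : ∃ 𝔓 : HeightOneSpectrum O, PF t Q π 𝔓 φ := by
  have hf0 : f.map π ≠ 0 := (h.mon.map π).ne_zero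
  obtain ⟨a1, a2, a3⟩ := (mem_fs hf0).1 hφ
  haveI : Fact (Irreducible φ) := ⟨a2⟩
  have hk : RingHom.ker (ev (k := k) t) ≤
      RingHom.ker ((AdjoinRoot.mk φ).comp (mapRingHom π)) := by
    intro p hp
    rw [RingHom.mem_ker] at hp ⊢
    obtain ⟨c, rfl⟩ := ev_ker (K := K) h ht hp
    simp only [RingHom.comp_apply, coe_mapRingHom, Polynomial.map_mul, map_mul]
    rw [AdjoinRoot.mk_eq_zero.2 a3, zero_mul]
  obtain ⟨ψ, hψ⟩ : ∃ ψ : O →+* AdjoinRoot φ, ∀ p : k[X][X], ψ (ev t p) = AdjoinRoot.mk φ (p.map π) := by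
    refine ⟨(ev (k := k) t).liftOfSurjective (ev_surj (K := K) hI h hsq ht) ⟨_, hk⟩, fun p => ?_⟩
    rw [RingHom.liftOfRightInverse_comp_apply]
    rfl
  have hψs : Function.Surjective ψ := by
    intro a
    obtain ⟨q, rfl⟩ := AdjoinRoot.mk_surjective a
    obtain ⟨p, rfl⟩ := Polynomial.map_surjective π hπs q
    exact ⟨_, hψ p⟩
  have hmax : (RingHom.ker ψ).IsMaximal := RingHom.ker_isMaximal_of_surjective ψ hψs
  have hQ0 : algebraMap k[X] O Q ≠ 0 := by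
    intro h0
    exact hQ.ne_zero (Pool.Agent.N765.PJ.injO K L O (by rw [h0, map_zero]))
  have hevC : ev t (C Q) = algebraMap k[X] O Q := by simp [ev]
  have q1 : algebraMap k[X] O Q ∈ RingHom.ker ψ := by
    rw [RingHom.mem_ker, ← hevC, hψ, Polynomial.map_C, (hπ Q).2 dvd_rfl, C_0, map_zero]
  have hb : RingHom.ker ψ ≠ ⊥ := fun h0 => hQ0 (by rwa [h0, Ideal.mem_bot] at q1)
  refine ⟨⟨RingHom.ker ψ, hmax.isPrime, hb⟩, q1, fun p => ?_, fun p => ?_⟩
  · change ev t p ∈ RingHom.ker ψ ↔ _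
    rw [RingHom.mem_ker, hψ, AdjoinRoot.mk_eq_zero]
  · change (∃ z : O, ev t p - z ^ 2 ∈ RingHom.ker ψ) ↔ _
    constructor
    · rintro ⟨z, hz⟩
      rw [RingHom.mem_ker, map_sub, map_pow, hψ, sub_eq_zero] at hz
      exact ⟨ψ z, by rw [hz, sq]⟩
    · rintro ⟨y, hy⟩
      obtain ⟨z, rfl⟩ := hψs y
      refine ⟨z, ?_⟩
      rw [RingHom.mem_ker, map_sub, map_pow, hψ, hy, sq, sub_self]

theorem prime_fac (hπs : Function.Surjective π) (hπ : ∀ c, π c = 0 ↔ Q ∣ c) (hQ : Irreducible Q)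
    (hI : S_INT) (h : IsGen g K f θ) (hsq : Squarefree (dsc g f)) (ht : algebraMap O L t = θ)
    (hs : Squarefree (f.map π)) {𝔓 : HeightOneSpectrum O} (hov : Ov Q 𝔓) :
    ∃ φ ∈ fs (f.map π), PF t Q π 𝔓 φ := by
  have hf0 : f.map π ≠ 0 := (h.mon.map π).ne_zero
  -- a factor in `𝔓`
  obtain ⟨l, hl⟩ : ∃ l : κ[X] → k[X][X], ∀ φ, (l φ).map π = φ :=
    ⟨fun φ => (Polynomial.map_surjective π hπs φ).choose,
      fun φ => (Polynomial.map_surjective π hπs φ).choose_spec⟩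
  have h1 : ev t (∏ φ ∈ fs (f.map π), l φ) ∈ 𝔓.asIdeal := by
    refine mem_of_dvd hπs hπ hov (m := f) ?_ ?_
    · rw [ev_f h ht]
      exact 𝔓.asIdeal.zero_mem
    · rw [Polynomial.map_prod, Finset.prod_congr rfl (fun φ _ => hl φ), fs_prod (h.mon.map π) hs]
  rw [map_prod, 𝔓.isPrime.prod_mem_iff] at h1
  obtain ⟨φ, hφ, h2⟩ := h1
  obtain ⟨𝔮, h𝔮⟩ := ex_prime (K := K) hπs hπ hQ hI h hsq ht hφ
  have h3 : 𝔮.asIdeal ≤ 𝔓.asIdeal := by
    intro z hz
    obtain ⟨p, rfl⟩ := ev_surj (K := K) hI h hsq ht z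
    exact mem_of_dvd hπs hπ hov h2 (by rw [hl]; exact (h𝔮.mem p).1 hz)
  have h4 : 𝔮 = 𝔓 := HeightOneSpectrum.ext (𝔮.isMaximal.eq_of_le 𝔓.isPrime.ne_top h3)
  exact ⟨φ, hφ, h4 ▸ h𝔮⟩

theorem PF.uniq (hI : S_INT) (h : IsGen g K f θ) (hsq : Squarefree (dsc g f))
    (ht : algebraMap O L t = θ) {𝔓 𝔮 : HeightOneSpectrum O} {φ : κ[X]} (h1 : PF t Q π 𝔓 φ)
    (h2 : PF t Q π 𝔮 φ) : 𝔓 = 𝔮 := by
  apply HeightOneSpectrum.ext
  ext z
  obtain ⟨p, rfl⟩ := ev_surj (K := K) hI h hsq ht z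
  rw [h1.mem, h2.mem]

theorem PF.inj (hπs : Function.Surjective π) (hf0 : f.map π ≠ 0) {𝔓 : HeightOneSpectrum O}
    {φ ψ : κ[X]} (hφ : φ ∈ fs (f.map π)) (hψ : ψ ∈ fs (f.map π))
    (h1 : PF t Q π 𝔓 φ) (h2 : PF t Q π 𝔓 ψ) : φ = ψ := by
  obtain ⟨p, hp⟩ := Polynomial.map_surjective π hπs φ
  have h3 : ψ ∣ φ := by
    rw [← hp]
    rw [← h2.mem, h1.mem, hp]
  by_contra hne
  exact ((mem_fs hf0).1 hψ).2.1.not_isUnit
    ((fs_coprime hf0 hφ hψ hne).isUnit_of_dvd' h3 dvd_rfl)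

/-- squares at a prime where the element is a unit -/
theorem sq1_unit {𝔓 : HeightOneSpectrum O} {y : O} (hy : y ∉ 𝔓.asIdeal) :
    Sq1 𝔓 (algebraMap O L y) ↔ ∃ z : O, y - z ^ 2 ∈ 𝔓.asIdeal := by
  have hvy : 𝔓.valuation L (algebraMap O L y) = 1 := 𝔓.valuation_eq_one_iff_notMem.mpr hy
  constructor
  · rintro ⟨s, hs⟩
    rw [hvy] at hs
    have hs1 : 𝔓.valuation L s ≤ 1 := by
      by_contra hgt
      push Not at hgt
      have h3 : 𝔓.valuation L (algebraMap O L y) < 𝔓.valuation L (s ^ 2) := by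
        rw [hvy, map_pow]
        exact one_lt_pow' hgt (by norm_num)
      have h4 : 𝔓.valuation L (algebraMap O L y - s ^ 2) = 𝔓.valuation L (s ^ 2) := by
        rw [Valuation.map_sub_swap]
        exact Valuation.map_sub_eq_of_lt_left _ h3
      rw [h4] at hs
      exact absurd (hvy ▸ h3) (not_lt.mpr hs.le)
    obtain ⟨z, hz⟩ := 𝔓.exists_valuation_sub_lt_of_integer hs1 1
    rw [Units.val_one] at hz
    refine ⟨z, ?_⟩
    rw [← 𝔓.valuation_lt_one_iff_mem (K := L)]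
    change 𝔓.valuation L (algebraMap O L (y - z ^ 2)) < 1
    have e : algebraMap O L (y - z ^ 2) = (algebraMap O L y - s ^ 2) -
        (algebraMap O L z - s) * (algebraMap O L z + s) := by
      rw [map_sub, map_pow]
      ring
    rw [e]
    refine Valuation.map_sub_lt _ hs ?_
    rw [map_mul]
    have h5 : 𝔓.valuation L (algebraMap O L z + s) ≤ 1 :=
      Valuation.map_add_le _ (𝔓.valuation_le_one _) hs1
    calc 𝔓.valuation L (algebraMap O L z - s) * 𝔓.valuation L (algebraMap O L z + s)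
        ≤ 𝔓.valuation L (algebraMap O L z - s) * 1 := mul_le_mul_right h5 _
      _ = 𝔓.valuation L (algebraMap O L z - s) := mul_one _
      _ < 1 := hz
  · rintro ⟨z, hz⟩
    refine ⟨algebraMap O L z, ?_⟩
    rw [hvy, ← map_pow, ← map_sub]
    exact (𝔓.valuation_lt_one_iff_mem _).mpr hz

theorem ev_of_sq1 {𝔓 : HeightOneSpectrum O} {x : L} (hs : Sq1 𝔓 x) : Ev 𝔓 x := by
  obtain ⟨s, hs⟩ := hs
  refine ⟨s, ?_⟩
  have e : 𝔓.valuation L (s ^ 2) = 𝔓.valuation L x := by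
    have : s ^ 2 = x - (x - s ^ 2) := by ring
    rw [this]
    exact Valuation.map_sub_eq_of_lt_left _ hs
  rw [← e, map_pow]

/-- unramified -/
theorem unram (hπs : Function.Surjective π) (hπ : ∀ c, π c = 0 ↔ Q ∣ c) (hQ : Irreducible Q)
    (hI : S_INT) (h : IsGen g K f θ) (hsq : Squarefree (dsc g f)) (ht : algebraMap O L t = θ)
    (hs : Squarefree (f.map π)) {𝔓 : HeightOneSpectrum O} (hov : Ov Q 𝔓) :
    𝔓.valuation L (algebraMap k[X] L Q) = exp (-1 : ℤ) := by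
  obtain ⟨ϖ, hϖ⟩ := 𝔓.valuation_exists_uniformizer L
  have hϖ0 : ϖ ≠ 0 := by
    rintro rfl
    rw [map_zero] at hϖ
    exact exp_ne_zero hϖ.symm
  have hQ0 : algebraMap k[X] L Q ≠ 0 := by
    intro h0
    exact hQ.ne_zero (Pool.Agent.N862.PP.algL_inj (K := K) (by rw [h0, map_zero]))
  obtain ⟨β, hβ⟩ := Run7.h225.TS.Ovr.approx (Run7.h225.TS.Ovr.fin_ov (K := K) (L := L) (O := O) hQ.ne_zero)
    (fun 𝔮 => if 𝔮 = 𝔓 then ϖ else algebraMap k[X] L Q) (fun 𝔮 _ => by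
      split_ifs
      · exact hϖ0
      · exact hQ0)
  have hval : ∀ {𝔮 : HeightOneSpectrum O} {x y : L}, 𝔮.valuation L (x - y) < 𝔮.valuation L y →
      𝔮.valuation L x = 𝔮.valuation L y := by
    intro 𝔮 x y hxy
    have e : x = y + (x - y) := by ring
    rw [e]
    exact Valuation.map_add_eq_of_lt_left _ hxy
  have h1 : 𝔓.valuation L β = exp (-1 : ℤ) := by
    have := hβ 𝔓 hov
    simp only [if_true] at this
    rw [hval this, hϖ]
  have h2 : ∀ 𝔮 : HeightOneSpectrum O, Ov Q 𝔮 → 𝔮.valuation L β < 1 := by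
    intro 𝔮 h𝔮
    by_cases he : 𝔮 = 𝔓
    · rw [he, h1, ← exp_zero, exp_lt_exp]
      norm_num
    · have := hβ 𝔮 h𝔮
      simp only [he, if_false] at this
      rw [hval this, ← Pool.Agent.N765.PJ.mapO (O := O)]
      exact (𝔮.valuation_lt_one_iff_mem _).mpr h𝔮
  obtain ⟨c, z, hc, hz⟩ := Pool.Agent.N227.PJ.exists_den_Q (K := K) h ht hQ β
    (fun 𝔮 h𝔮 => (h2 𝔮 h𝔮).le)
  have hvc : ∀ 𝔮 : HeightOneSpectrum O, Ov Q 𝔮 → 𝔮.valuation L (algebraMap k[X] L c) = 1 := by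
    intro 𝔮 h𝔮
    rw [← Pool.Agent.N765.PJ.mapO (O := O)]
    exact 𝔮.valuation_eq_one_iff_notMem.mpr fun h3 => hc ((Pool.Agent.N765.PJ.ov_iff hQ h𝔮 c).1 h3)
  have hzm : ∀ 𝔮 : HeightOneSpectrum O, Ov Q 𝔮 → z ∈ 𝔮.asIdeal := by
    intro 𝔮 h𝔮
    rw [← 𝔮.valuation_lt_one_iff_mem (K := L)]
    change 𝔮.valuation L (algebraMap O L z) < 1
    rw [← hz, map_mul, hvc 𝔮 h𝔮, one_mul]
    exact h2 𝔮 h𝔮
  obtain ⟨p, rfl⟩ := ev_surj (K := K) hI h hsq ht z
  have h3 : f.map π ∣ p.map π := by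
    refine fs_dvd (h.mon.map π) hs fun φ hφ => ?_
    obtain ⟨𝔮, h𝔮⟩ := ex_prime (K := K) hπs hπ hQ hI h hsq ht hφ
    exact (h𝔮.mem p).1 (hzm 𝔮 h𝔮.ov)
  have h4 : ev t p ∈ Ideal.span {algebraMap k[X] O Q} := by
    refine mem_of_dvd hπs hπ (Ideal.mem_span_singleton_self _) (m := f) ?_ h3
    rw [ev_f h ht]
    exact Ideal.zero_mem _
  obtain ⟨w, hw⟩ := Ideal.mem_span_singleton.1 h4
  have h5 : exp (-1 : ℤ) ≤ 𝔓.valuation L (algebraMap k[X] L Q) := by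
    rw [← h1, ← one_mul (𝔓.valuation L β), ← hvc 𝔓 hov, ← map_mul, hz, hw, map_mul, map_mul,
      Pool.Agent.N765.PJ.mapO]
    exact mul_le_of_le_one_right' (𝔓.valuation_le_one _)
  have h6 : 𝔓.valuation L (algebraMap k[X] L Q) < 1 := by
    rw [← Pool.Agent.N765.PJ.mapO (O := O)]
    exact (𝔓.valuation_lt_one_iff_mem _).mpr hov
  have h7 : 𝔓.valuation L (algebraMap k[X] L Q) ≠ 0 := (Valuation.ne_zero_iff _).2 hQ0
  rw [← exp_log h7] at h5 h6 ⊢
  rw [exp_le_exp] at h5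
  rw [← exp_zero, exp_lt_exp] at h6
  congr 1
  omega

end main

end Run7.h646.TG
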