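import Pool.Agent.Run7.h646.TG.LocB

/-!
# Project TG (helper784), part LOCQ: the primes over `Q ∤ dsc`

helper646.
-/

set_option autoImplicit false
set_option linter.all false

open Polynomial IsDedekindDomain WithZero
open scoped Classical

namespace Run7.h646.TG

open Pool.Agent.N874.PP (Ov Ev Sq1)
open Pool.Agent.N352.PJ (IsGen Crd GoodR Ht dsc S_INT)
open Pool.Agent.N765.PJ (ev ev_L ev_f ev_ker ev_surj ex_poly ev_CQ theta_ex val_one)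
open Pool.Agent.N862.PP (sq1_mul_sq not_ev_of_exp ev_mul_sq)
open Run7.h784.TG (Fm LocW P_LOCQ)
open Run7.h875.TS (Tr)

section main

variable {k K L O : Type} [Field k] [Field K] [Algebra k[X] K] [IsFractionRing k[X] K]
  [Field L] [Algebra K L] [Algebra k[X] L] [IsScalarTower k[X] K L] [CommRing O]
  [IsDedekindDomain O] [Algebra O L] [IsFractionRing O L] [Algebra k[X] O]
  [IsScalarTower k[X] O L] [IsIntegralClosure O k[X] L] {g : ℕ} {f : k[X][X]} {θ : L}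
  {Q : k[X]} {κ : Type} [Field κ] {π : k[X] →+* κ} {t : O}

theorem parity [Finite κ] (h2 : (2 : κ) ≠ 0) (hπs : Function.Surjective π)
    (hπ : ∀ c, π c = 0 ↔ Q ∣ c) (hQ : Irreducible Q)
    (hI : S_INT) (h : IsGen g K f θ) (hsq : Squarefree (dsc g f)) (ht : algebraMap O L t = θ)
    (hs : Squarefree (f.map π)) {s : L} (hs0 : s ≠ 0) (hn : IsSquare (Algebra.norm K s))
    (hev : ∀ 𝔓 : HeightOneSpectrum O, Ov Q 𝔓 → Ev 𝔓 s) :
    Even {𝔓 : HeightOneSpectrum O | Ov Q 𝔓 ∧ ¬ Sq1 𝔓 s}.ncard := by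
  have hfin := Run7.h225.TS.Ovr.fin_ov (K := K) (L := L) (O := O) hQ.ne_zero
  have hfd : FiniteDimensional K L := Pool.Agent.N227.PJ.fd h
  -- a unit at the primes over `Q`
  have hy : ∀ 𝔓 : HeightOneSpectrum O, ∃ y : L, Ov Q 𝔓 → y ≠ 0 ∧ 𝔓.valuation L s = 𝔓.valuation L y ^ 2 := by
    intro 𝔓
    by_cases hov : Ov Q 𝔓
    · obtain ⟨y, hy⟩ := hev 𝔓 hov
      refine ⟨y, fun _ => ⟨?_, hy⟩⟩
      rintro rfl
      rw [map_zero, zero_pow two_ne_zero] at hy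
      exact hs0 ((Valuation.zero_iff _).1 hy)
    · exact ⟨0, fun h' => absurd h' hov⟩
  choose y hy using hy
  obtain ⟨β, hβ⟩ := Run7.h225.TS.Ovr.approx hfin y (fun 𝔓 h𝔓 => (hy 𝔓 h𝔓).1)
  have hvβ : ∀ 𝔓 : HeightOneSpectrum O, Ov Q 𝔓 → 𝔓.valuation L β = 𝔓.valuation L (y 𝔓) := by
    intro 𝔓 h𝔓
    have e : β = y 𝔓 + (β - y 𝔓) := by ring
    rw [e]
    exact Valuation.map_add_eq_of_lt_left _ (hβ 𝔓 h𝔓)
  obtain ⟨φ₀, hφ₀⟩ := fs_nonempty (h.mon.map π) (by rw [h.mon.natDegree_map, h.deg]; omega)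
  obtain ⟨𝔓₀, h𝔓₀⟩ := ex_prime (K := K) hπs hπ hQ hI h hsq ht hφ₀
  have hβ0 : β ≠ 0 := by
    rintro rfl
    have h1 := hvβ 𝔓₀ h𝔓₀.ov
    rw [map_zero] at h1
    exact (hy 𝔓₀ h𝔓₀.ov).1 ((Valuation.zero_iff _).1 h1.symm)
  have hv1 : ∀ 𝔓 : HeightOneSpectrum O, Ov Q 𝔓 → 𝔓.valuation L (s * (β⁻¹) ^ 2) = 1 := by
    intro 𝔓 h𝔓
    have h3 : 𝔓.valuation L (y 𝔓) ≠ 0 := (Valuation.ne_zero_iff _).2 (hy 𝔓 h𝔓).1
    rw [map_mul, map_pow, map_inv₀, hvβ 𝔓 h𝔓, (hy 𝔓 h𝔓).2, inv_pow, mul_inv_cancel₀ (pow_ne_zero 2 h3)]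
  obtain ⟨c, z, hc, hz⟩ := Pool.Agent.N227.PJ.exists_den_Q (K := K) h ht hQ (s * (β⁻¹) ^ 2)
    (fun 𝔓 h𝔓 => (hv1 𝔓 h𝔓).le)
  have hc0 : algebraMap k[X] L c ≠ 0 := by
    intro h0
    have : c = 0 := Pool.Agent.N765.PJ.inj_L (L := L) K (by rw [h0, map_zero])
    exact hc (by rw [this]; exact dvd_zero _)
  have hvc : ∀ 𝔮 : HeightOneSpectrum O, Ov Q 𝔮 → 𝔮.valuation L (algebraMap k[X] L c) = 1 := by
    intro 𝔮 h𝔮
    rw [← Pool.Agent.N765.PJ.mapO (O := O)]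
    exact 𝔮.valuation_eq_one_iff_notMem.mpr fun h3 => hc ((Pool.Agent.N765.PJ.ov_iff hQ h𝔮 c).1 h3)
  have hw : algebraMap O L (algebraMap k[X] O c * z) = s * (algebraMap k[X] L c * β⁻¹) ^ 2 := by
    rw [map_mul, Pool.Agent.N765.PJ.mapO, ← hz]
    ring
  have hcβ : algebraMap k[X] L c * β⁻¹ ≠ 0 := mul_ne_zero hc0 (inv_ne_zero hβ0)
  obtain ⟨p, hpd, hp⟩ := ex_poly (K := K) hI h hsq ht (algebraMap k[X] O c * z)
  rw [← hp] at hw
  have hwn : ∀ 𝔓 : HeightOneSpectrum O, Ov Q 𝔓 → ev t p ∉ 𝔓.asIdeal := by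
    intro 𝔓 h𝔓 hmem
    have h3 : 𝔓.valuation L (algebraMap O L (ev t p)) < 1 := (𝔓.valuation_lt_one_iff_mem _).mpr hmem
    have h4 : algebraMap O L (ev t p) = algebraMap k[X] L c ^ 2 * (s * (β⁻¹) ^ 2) := by
      rw [hw]; ring
    rw [h4, map_mul, map_pow, hvc 𝔓 h𝔓, hv1 𝔓 h𝔓, one_pow, one_mul] at h3
    exact lt_irrefl _ h3
  -- the norm
  have hpn : p.natDegree ≤ 2 * g := by
    by_cases hp0 : p = 0
    · rw [hp0]; simp
    · have := (natDegree_lt_iff_degree_lt hp0).2 hpd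
      omega
  have hnw : IsSquare (algebraMap k[X] K (f.resultant p (2 * g + 1) (2 * g))) := by
    have h3 := Pool.Agent.N769.PJ.nrm h hsq.ne_zero (p.map (algebraMap k[X] K)) (2 * g)
      (natDegree_map_le.trans hpn)
    rw [resultant_map_map, aeval_map_algebraMap, aeval_def, ← ev_L ht, hw, map_mul, map_pow] at h3
    rw [← h3]
    obtain ⟨r, hr⟩ := hn
    exact ⟨r * Algebra.norm K (algebraMap k[X] L c * β⁻¹), by rw [hr]; ring⟩
  obtain ⟨r, hr⟩ := hnw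
  have hint : IsIntegral k[X] r := by
    refine IsIntegral.of_pow (n := 2) (by norm_num) ?_
    rw [sq, ← hr]
    exact isIntegral_algebraMap
  obtain ⟨m, rfl⟩ := IsIntegrallyClosed.isIntegral_iff.mp hint
  rw [← map_mul] at hr
  have hm := IsFractionRing.injective k[X] K hr
  have hfd' : (f.map π).natDegree = 2 * g + 1 := by rw [h.mon.natDegree_map, h.deg]
  have hres : IsSquare (resultant (f.map π) (p.map π) (f.map π).natDegree (2 * g)) := by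
    rw [hfd', resultant_map_map, hm]
    exact ⟨π m, map_mul _ _ _⟩
  have hnd : ∀ φ ∈ fs (f.map π), ¬ φ ∣ p.map π := by
    intro φ hφ hdv
    obtain ⟨𝔓, h𝔓⟩ := ex_prime (K := K) hπs hπ hQ hI h hsq ht hφ
    exact hwn 𝔓 h𝔓.ov ((h𝔓.mem p).2 hdv)
  have hE := even_nonsq h2 (h.mon.map π) hs (natDegree_map_le.trans hpn) hnd hres
  -- the bijection
  have hP : ∀ φ : κ[X], ∃ 𝔓 : HeightOneSpectrum O, φ ∈ fs (f.map π) → PF t Q π 𝔓 φ := by
    intro φ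
    by_cases hφ : φ ∈ fs (f.map π)
    · obtain ⟨𝔓, h𝔓⟩ := ex_prime (K := K) hπs hπ hQ hI h hsq ht hφ
      exact ⟨𝔓, fun _ => h𝔓⟩
    · exact ⟨𝔓₀, fun h' => absurd h' hφ⟩
  choose P hP using hP
  have hkey : ∀ {𝔓 : HeightOneSpectrum O} {φ : κ[X]}, PF t Q π 𝔓 φ →
      (Sq1 𝔓 s ↔ IsSquare (AdjoinRoot.mk φ (p.map π))) := by
    intro 𝔓 φ h3
    rw [← h3.sq p, ← sq1_unit (L := L) (hwn 𝔓 h3.ov), hw, sq1_mul_sq hcβ]
  have hset : {𝔓 : HeightOneSpectrum O | Ov Q 𝔓 ∧ ¬ Sq1 𝔓 s} =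
      P '' (((fs (f.map π)).filter fun φ => ¬ IsSquare (AdjoinRoot.mk φ (p.map π)) : Finset κ[X]) :
        Set κ[X]) := by
    ext 𝔓
    simp only [Set.mem_setOf_eq, Set.mem_image, Finset.mem_coe, Finset.mem_filter]
    constructor
    · rintro ⟨hov, hns⟩
      obtain ⟨φ, hφ, h3⟩ := prime_fac (K := K) hπs hπ hQ hI h hsq ht hs hov
      exact ⟨φ, ⟨hφ, fun h4 => hns ((hkey h3).2 h4)⟩, PF.uniq (K := K) hI h hsq ht (hP φ hφ) h3⟩
    · rintro ⟨φ, ⟨hφ, h3⟩, rfl⟩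
      exact ⟨(hP φ hφ).ov, fun h4 => h3 ((hkey (hP φ hφ)).1 h4)⟩
  rw [hset, Set.ncard_image_of_injOn, Set.ncard_coe_finset]
  · exact hE
  · intro φ hφ ψ hψ he
    have hφ' := (Finset.mem_filter.1 hφ).1
    have hψ' := (Finset.mem_filter.1 hψ).1
    have h3 := hP ψ hψ'
    rw [← he] at h3
    exact PF.inj hπs (h.mon.map π).ne_zero hφ' hψ' (hP φ hφ') h3

/-- exactly one of `a(θ)`, `b(θ)` is in `𝔓` -/
theorem one_of (hπs : Function.Surjective π) (hπ : ∀ c, π c = 0 ↔ Q ∣ c)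
    (h : IsGen g K f θ) (ht : algebraMap O L t = θ)
    (hs : Squarefree (f.map π)) {a b : k[X][X]} (hab : ∀ j, Q ∣ (f - a * b).coeff j)
    {𝔓 : HeightOneSpectrum O} {φ : κ[X]} (hφ : φ ∈ fs (f.map π)) (h3 : PF t Q π 𝔓 φ) :
    (𝔓.valuation L (eval₂ (algebraMap k[X] L) θ a) < 1 ∧
        𝔓.valuation L (eval₂ (algebraMap k[X] L) θ b) = 1) ∨
      (𝔓.valuation L (eval₂ (algebraMap k[X] L) θ a) = 1 ∧
        𝔓.valuation L (eval₂ (algebraMap k[X] L) θ b) < 1) := by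
  have hf : f.map π = a.map π * b.map π := by
    rw [← Polynomial.map_mul]
    exact (map_eq_iff hπ).2 hab
  obtain ⟨a1, a2, a3⟩ := (mem_fs (h.mon.map π).ne_zero).1 hφ
  have hlt : ∀ p : k[X][X], 𝔓.valuation L (eval₂ (algebraMap k[X] L) θ p) < 1 ↔ φ ∣ p.map π := by
    intro p
    rw [← ev_L ht, ← h3.mem]
    exact 𝔓.valuation_lt_one_iff_mem _
  have heq : ∀ p : k[X][X], 𝔓.valuation L (eval₂ (algebraMap k[X] L) θ p) = 1 ↔ ¬ φ ∣ p.map π := by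
    intro p
    rw [← ev_L ht, ← h3.mem]
    exact 𝔓.valuation_eq_one_iff_notMem
  have h4 : ¬ (φ ∣ a.map π ∧ φ ∣ b.map π) := by
    rintro ⟨h5, h6⟩
    have h7 : φ * φ ∣ f.map π := by
      rw [hf]; exact mul_dvd_mul h5 h6
    exact a2.not_isUnit (hs φ h7)
  rw [hf] at a3
  rcases a2.prime.dvd_or_dvd a3 with h5 | h5
  · exact Or.inl ⟨(hlt a).2 h5, (heq b).2 fun h6 => h4 ⟨h5, h6⟩⟩
  · exact Or.inr ⟨(heq a).2 fun h6 => h4 ⟨h6, h5⟩, (hlt b).2 h5⟩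

theorem locw (hπs : Function.Surjective π) (hπ : ∀ c, π c = 0 ↔ Q ∣ c) (hQ : Irreducible Q)
    (hI : S_INT) (h : IsGen g K f θ) (hsq : Squarefree (dsc g f)) (ht : algebraMap O L t = θ)
    (hs : Squarefree (f.map π)) {w : k[X]} {x : L} (hw : ¬ Q ∣ w) (hx : x ≠ 0)
    (hl : LocW O f θ Q (Q * w) x) :
    ((∀ 𝔓 : HeightOneSpectrum O, Ov Q 𝔓 → Ev 𝔓 x) → Tr O Q x) ∧
      ∃ 𝔓 : HeightOneSpectrum O, Ov Q 𝔓 ∧ Ev 𝔓 x := by
  obtain ⟨a, b, ha, hb, hae, hab, hcl⟩ := hl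
  have hf : f.map π = a.map π * b.map π := by
    rw [← Polynomial.map_mul]
    exact (map_eq_iff hπ).2 hab
  have hf0 := (h.mon.map π).ne_zero
  have hlt : ∀ {𝔓 : HeightOneSpectrum O} {φ : κ[X]}, PF t Q π 𝔓 φ → ∀ p : k[X][X],
      (𝔓.valuation L (eval₂ (algebraMap k[X] L) θ p) < 1 ↔ φ ∣ p.map π) := by
    intro 𝔓 φ h3 p
    rw [← ev_L ht, ← h3.mem]
    exact 𝔓.valuation_lt_one_iff_mem _
  have hmul1 : ∀ {𝔓 : HeightOneSpectrum O} {u : L}, 𝔓.valuation L u = 1 → Ev 𝔓 (x * u) → Ev 𝔓 x := by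
    rintro 𝔓 u hu ⟨y, hy⟩
    rw [map_mul, hu, mul_one] at hy
    exact ⟨y, hy⟩
  -- the two cases
  have hodd : ∀ 𝔓 : HeightOneSpectrum O, Ov Q 𝔓 →
      𝔓.valuation L (eval₂ (algebraMap k[X] L) θ a) < 1 → ¬ Ev 𝔓 x := by
    intro 𝔓 hov hlt1 hev
    obtain ⟨φ, hφ, h3⟩ := prime_fac (K := K) hπs hπ hQ hI h hsq ht hs hov
    have hb1 : 𝔓.valuation L (eval₂ (algebraMap k[X] L) θ b) = 1 := by
      rcases one_of hπs hπ h ht hs hab hφ h3 with h4 | h4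
      · exact h4.2
      · rw [h4.1] at hlt1
        exact absurd hlt1 (lt_irrefl _)
    have hw1 : 𝔓.valuation L (algebraMap k[X] L w) = 1 := by
      rw [← Pool.Agent.N765.PJ.mapO (O := O)]
      exact 𝔓.valuation_eq_one_iff_notMem.mpr fun h3 => hw ((Pool.Agent.N765.PJ.ov_iff hQ hov w).1 h3)
    have hu := unram (K := K) hπs hπ hQ hI h hsq ht hs hov
    have h4 := ev_of_sq1 ((hcl 𝔓 hov).1 hlt1)
    obtain ⟨n, hn⟩ : ∃ n : ℤ, 𝔓.valuation L x = exp n :=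
      ⟨log (𝔓.valuation L x), (exp_log ((Valuation.ne_zero_iff _).2 hx)).symm⟩
    have h5 : 𝔓.valuation L (x * (algebraMap k[X] L (-(Q * w)) *
        eval₂ (algebraMap k[X] L) θ b)) = exp (n - 1) := by
      rw [map_mul, map_mul, hb1, mul_one, map_neg, Valuation.map_neg, map_mul, map_mul, hw1, mul_one,
        hu, hn, ← exp_add]
      rfl
    rw [not_ev_of_exp hn] at hev
    rw [not_ev_of_exp h5] at h4
    obtain ⟨i, hi⟩ := hev
    obtain ⟨j, hj⟩ := h4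
    omega
  have heven : ∀ 𝔓 : HeightOneSpectrum O, Ov Q 𝔓 →
      𝔓.valuation L (eval₂ (algebraMap k[X] L) θ a) = 1 → Ev 𝔓 x :=
    fun 𝔓 hov h1 => hmul1 h1 (ev_of_sq1 ((hcl 𝔓 hov).2 h1))
  have hdich : ∀ 𝔓 : HeightOneSpectrum O, Ov Q 𝔓 →
      𝔓.valuation L (eval₂ (algebraMap k[X] L) θ a) < 1 ∨
      𝔓.valuation L (eval₂ (algebraMap k[X] L) θ a) = 1 := by
    intro 𝔓 hov
    obtain ⟨φ, hφ, h3⟩ := prime_fac (K := K) hπs hπ hQ hI h hsq ht hs hov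
    rcases one_of hπs hπ h ht hs hab hφ h3 with h4 | h4
    · exact Or.inl h4.1
    · exact Or.inr h4.1
  constructor
  · intro hall
    have h1 : ∀ 𝔓 : HeightOneSpectrum O, Ov Q 𝔓 →
        𝔓.valuation L (eval₂ (algebraMap k[X] L) θ a) = 1 := fun 𝔓 hov =>
      (hdich 𝔓 hov).resolve_left fun h2 => hodd 𝔓 hov h2 (hall 𝔓 hov)
    have ha1 : a = 1 := by
      refine eq_one_of_monic_natDegree_zero ha ?_
      by_contra hd
      have hd' : 0 < (a.map π).natDegree := by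
        rw [ha.natDegree_map]; omega
      obtain ⟨φ, hφ⟩ := fs_nonempty (ha.map π) hd'
      obtain ⟨a1, a2, a3⟩ := (mem_fs (ha.map π).ne_zero).1 hφ
      have hφ' : φ ∈ fs (f.map π) := (mem_fs hf0).2 ⟨a1, a2, by rw [hf]; exact a3.mul_right _⟩
      obtain ⟨𝔓, h𝔓⟩ := ex_prime (K := K) hπs hπ hQ hI h hsq ht hφ'
      have h4 := (hlt h𝔓 a).2 a3
      rw [h1 𝔓 h𝔓.ov] at h4
      exact lt_irrefl _ h4
    intro 𝔓 hov
    have h5 := (hcl 𝔓 hov).2 (h1 𝔓 hov)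
    rw [ha1, eval₂_one, mul_one] at h5
    exact h5
  · by_contra hcon
    push Not at hcon
    have h1 : ∀ 𝔓 : HeightOneSpectrum O, Ov Q 𝔓 →
        𝔓.valuation L (eval₂ (algebraMap k[X] L) θ a) < 1 := fun 𝔓 hov =>
      (hdich 𝔓 hov).resolve_right fun h2 => hcon 𝔓 hov (heven 𝔓 hov h2)
    have h2 : f.map π ∣ a.map π := by
      refine fs_dvd (h.mon.map π) hs fun φ hφ => ?_
      obtain ⟨𝔓, h𝔓⟩ := ex_prime (K := K) hπs hπ hQ hI h hsq ht hφ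
      exact (hlt h𝔓 a).1 (h1 𝔓 h𝔓.ov)
    have h3 := natDegree_le_of_dvd h2 (ha.map π).ne_zero
    have h4 : (f.map π).natDegree = (a.map π).natDegree + (b.map π).natDegree := by
      rw [hf, (ha.map π).natDegree_mul (hb.map π)]
    rw [h.mon.natDegree_map, ha.natDegree_map, h.deg] at h3
    rw [h.mon.natDegree_map, ha.natDegree_map, hb.natDegree_map, h.deg] at h4
    obtain ⟨j, hj⟩ := hae
    omega

end main

/-- **LOCQ.** -/
theorem T_LOCQ : P_LOCQ := by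
  intro k K L O _ _ _ _ _ _ _ _ _ _ _ _ _ _ _ _ g N r f θ hF h Q hQm hQ hd
  have hI : S_INT := Pool.Agent.N769.PJ.int
  have hsq : Squarefree (dsc g f) := hF.fam.sq
  have hmax : (Ideal.span {Q} : Ideal k[X]).IsMaximal :=
    PrincipalIdealRing.isMaximal_of_irreducible hQ
  letI i1 : Field (k[X] ⧸ Ideal.span {Q}) := Ideal.Quotient.field _
  obtain ⟨t, ht⟩ := theta_ex O h
  set π : k[X] →+* k[X] ⧸ Ideal.span {Q} := Ideal.Quotient.mk (Ideal.span {Q}) with hπd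
  have hπs : Function.Surjective π := Ideal.Quotient.mk_surjective
  have hπ : ∀ c, π c = 0 ↔ Q ∣ c := fun c => by
    rw [hπd, Ideal.Quotient.eq_zero_iff_mem, Ideal.mem_span_singleton]
  have hfinκ : Finite (k[X] ⧸ Ideal.span {Q}) := by
    have hd1 : Module.finrank k (k[X] ⧸ Ideal.span {Q}) = Q.natDegree :=
      finrank_quotient_span_eq_natDegree
    have f1 : Module.Finite k (k[X] ⧸ Ideal.span {Q}) :=
      Module.finite_of_finrank_pos (by rw [hd1]; exact hQ.natDegree_pos)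
    exact Module.finite_of_finite k
  have h2 : (2 : k[X] ⧸ Ideal.span {Q}) ≠ 0 := by
    intro h0
    have h1 : π (C 2) = 0 := by
      rw [show (C 2 : k[X]) = 2 from rfl, map_ofNat]
      exact h0
    rw [hπ] at h1
    have h3 : IsUnit (C (2 : k)) := isUnit_C.2 (IsUnit.mk0 _ hF.two)
    exact hQ.not_isUnit (isUnit_of_dvd_unit h1 h3)
  have hs : Squarefree (f.map π) := red_sqf hπ h.mon h.deg hF.g1 hd
  have hfin := Run7.h225.TS.Ovr.fin_ov (K := K) (L := L) (O := O) hQ.ne_zero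
  refine ⟨hfin, ?_, ?_, ?_, ?_⟩
  · obtain ⟨φ₀, hφ₀⟩ := fs_nonempty (h.mon.map π) (by rw [h.mon.natDegree_map, h.deg]; omega)
    obtain ⟨𝔓₀, h𝔓₀⟩ := ex_prime (K := K) hπs hπ hQ hI h hsq ht hφ₀
    exact ⟨𝔓₀, h𝔓₀.ov⟩
  · intro a b ha hb hab 𝔓 hov
    obtain ⟨φ, hφ, h3⟩ := prime_fac (K := K) hπs hπ hQ hI h hsq ht hs hov
    exact one_of hπs hπ h ht hs hab hφ h3
  · intro s hs0 hn hev
    exact parity (K := K) h2 hπs hπ hQ hI h hsq ht hs hs0 hn hev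
  · intro w x hw hx hl
    exact locw (K := K) hπs hπ hQ hI h hsq ht hs hw hx hl

end Run7.h646.TG
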