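import Pool.Agent.Y37.SZ.Sym

/-!
# Project TG (helper784), part LOCQ: factorisation of a squarefree polynomial over a finite field

helper646.
-/

set_option autoImplicit false
set_option linter.all false

open Polynomial UniqueFactorizationMonoid
open scoped Classical

namespace Run7.h646.TG

section fac

variable {F : Type} [Field F]

/-- the monic irreducible factors -/
noncomputable def fs (G : F[X]) : Finset F[X] := (normalizedFactors G).toFinset

theorem mem_fs {G : F[X]} (hG : G ≠ 0) {φ : F[X]} :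
    φ ∈ fs G ↔ φ.Monic ∧ Irreducible φ ∧ φ ∣ G := by
  unfold fs
  rw [Multiset.mem_toFinset, mem_normalizedFactors_iff' hG]
  constructor
  · rintro ⟨h1, h2, h3⟩
    refine ⟨?_, h1, h3⟩
    rw [← h2]
    exact monic_normalize h1.ne_zero
  · rintro ⟨h1, h2, h3⟩
    exact ⟨h2, h1.normalize_eq_self, h3⟩

theorem fs_coprime {G : F[X]} (hG : G ≠ 0) {φ ψ : F[X]} (h1 : φ ∈ fs G) (h2 : ψ ∈ fs G)
    (hne : φ ≠ ψ) : IsCoprime φ ψ := by
  obtain ⟨a1, a2, a3⟩ := (mem_fs hG).1 h1
  obtain ⟨b1, b2, b3⟩ := (mem_fs hG).1 h2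
  refine (a2.coprime_iff_not_dvd).2 fun h => hne ?_
  exact eq_of_monic_of_associated a1 b1 ((a2.associated_of_dvd b2 h))

theorem fs_pairwise {G : F[X]} (hG : G ≠ 0) :
    ((fs G : Finset F[X]) : Set F[X]).Pairwise (Function.onFun IsCoprime id) :=
  fun _ h1 _ h2 hne => fs_coprime hG h1 h2 hne

theorem fs_prod {G : F[X]} (hG : G.Monic) (hsq : Squarefree G) : ∏ φ ∈ fs G, φ = G := by
  have h0 := hG.ne_zero
  have h1 : (normalizedFactors G).Nodup := (squarefree_iff_nodup_normalizedFactors h0).1 hsq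
  have h2 : ∏ φ ∈ fs G, φ = (normalizedFactors G).prod := by
    unfold fs
    rw [Finset.prod, Multiset.toFinset_val, Multiset.dedup_eq_self.2 h1, Multiset.map_id']
  rw [h2]
  have h3 := prod_normalizedFactors_eq h0
  rw [h3, hG.normalize_eq_self]

theorem fs_dvd {G : F[X]} (hG : G.Monic) (hsq : Squarefree G) {p : F[X]}
    (h : ∀ φ ∈ fs G, φ ∣ p) : G ∣ p := by
  rw [← fs_prod hG hsq]
  exact Finset.prod_dvd_of_coprime (fs_pairwise hG.ne_zero) h

theorem fs_nonempty {G : F[X]} (hG : G.Monic) (hd : 0 < G.natDegree) : (fs G).Nonempty := by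
  have h1 : ¬ IsUnit G := fun h => by
    have := natDegree_eq_zero_of_isUnit h
    omega
  obtain ⟨p, hp⟩ := exists_mem_normalizedFactors hG.ne_zero h1
  exact ⟨p, Multiset.mem_toFinset.2 hp⟩

end fac

section fin

variable {F : Type} [Field F] [Finite F]

/-- parity of the number of the factors modulo which `p` is not a square -/
theorem even_nonsq (h2 : (2 : F) ≠ 0) {G p : F[X]} (hG : G.Monic) (hsq : Squarefree G) {n : ℕ}
    (hp : p.natDegree ≤ n) (hnd : ∀ φ ∈ fs G, ¬ φ ∣ p)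
    (hres : IsSquare (resultant G p G.natDegree n)) :
    Even ((fs G).filter fun φ => ¬ IsSquare (AdjoinRoot.mk φ p)).card := by
  letI : Fintype F := Fintype.ofFinite F
  have hch : ringChar F ≠ 2 := by
    intro h
    apply h2
    have := ringChar.Nat.cast_ringChar (R := F)
    rw [h] at this
    exact_mod_cast this
  have hℓ : 2 ∣ Fintype.card F - 1 := by
    have := FiniteField.odd_card_of_char_ne_two hch
    omega
  have e1 : resultant G p G.natDegree n = ∏ φ ∈ fs G, Algebra.norm F (AdjoinRoot.mk φ p) := by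
    obtain ⟨m, rfl⟩ := Nat.exists_eq_add_of_le hp
    rw [resultant_add_right_deg _ _ _ _ _ le_rfl]
    have hc : G.coeff G.natDegree = 1 := hG
    rw [hc, one_pow, one_mul]
    have hlc : ∏ φ ∈ fs G, (φ : F[X]).leadingCoeff ≠ 0 :=
      Finset.prod_ne_zero_iff.2 fun φ hφ => leadingCoeff_ne_zero.2 ((mem_fs hG.ne_zero).1 hφ).1.ne_zero
    have h3 := resultant_prod_left (fs G) (fun φ : F[X] => φ) p p.natDegree hlc le_rfl
    rw [fs_prod hG hsq] at h3
    rw [h3]
    refine Finset.prod_congr rfl fun φ hφ => ?_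
    obtain ⟨a1, a2, a3⟩ := (mem_fs hG.ne_zero).1 hφ
    exact Pool.Agent.Y37.SZ.res_norm a1 a2 p
  have hne : ∀ φ ∈ fs G, AdjoinRoot.mk φ p ≠ 0 := fun φ hφ h0 => hnd φ hφ (AdjoinRoot.mk_eq_zero.1 h0)
  have e2 : ∀ φ ∈ fs G, quadraticChar F (Algebra.norm F (AdjoinRoot.mk φ p)) =
      if ¬ IsSquare (AdjoinRoot.mk φ p) then -1 else 1 := by
    intro φ hφ
    obtain ⟨a1, a2, a3⟩ := (mem_fs hG.ne_zero).1 hφ
    haveI : Fact (Irreducible φ) := ⟨a2⟩
    haveI : Module.Finite F (AdjoinRoot φ) := a1.finite_adjoinRoot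
    haveI : Finite (AdjoinRoot φ) := Module.finite_of_finite F
    have h4 := Pool.Agent.Y37.SZ.pow_of_norm hℓ (hne φ hφ)
    have h5 : Algebra.norm F (AdjoinRoot.mk φ p) ≠ 0 := fun h0 =>
      hne φ hφ ((Algebra.norm_eq_zero_iff).1 h0)
    have h6 : IsSquare (Algebra.norm F (AdjoinRoot.mk φ p)) ↔ IsSquare (AdjoinRoot.mk φ p) := by
      constructor
      · rintro ⟨z, hz⟩
        obtain ⟨y, hy⟩ := h4.1 ⟨z, by rw [hz, sq]⟩
        exact ⟨y, by rw [hy, sq]⟩
      · rintro ⟨y, hy⟩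
        obtain ⟨z, hz⟩ := h4.2 ⟨y, by rw [hy, sq]⟩
        exact ⟨z, by rw [hz, sq]⟩
    by_cases h7 : IsSquare (AdjoinRoot.mk φ p)
    · rw [if_neg (not_not.2 h7), quadraticChar_one_iff_isSquare h5, h6]
      exact h7
    · rw [if_pos h7, quadraticChar_neg_one_iff_not_isSquare, h6]
      exact h7
  have e3 : quadraticChar F (resultant G p G.natDegree n) = 1 := by
    have h5 : resultant G p G.natDegree n ≠ 0 := by
      rw [e1, Finset.prod_ne_zero_iff]
      intro φ hφ h0
      obtain ⟨a1, a2, a3⟩ := (mem_fs hG.ne_zero).1 hφ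
      haveI : Fact (Irreducible φ) := ⟨a2⟩
      haveI : Module.Finite F (AdjoinRoot φ) := a1.finite_adjoinRoot
      exact hne φ hφ ((Algebra.norm_eq_zero_iff).1 h0)
    rw [quadraticChar_one_iff_isSquare h5]
    exact hres
  rw [e1, map_prod, Finset.prod_congr rfl e2, Finset.prod_ite, Finset.prod_const, Finset.prod_const,
    one_pow, mul_one] at e3
  by_contra hodd
  rw [Nat.not_even_iff_odd] at hodd
  rw [hodd.neg_one_pow] at e3
  norm_num at e3

end fin

end Run7.h646.TG
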